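import Pool.Agent.P8H4.PK.Bas
import Pool.Agent.P8H17.UL.Stm

/-!
# Project UL, package DV: division of large points
-/

set_option autoImplicit false

open WeierstrassCurve Polynomial

namespace Pool.Agent.P8H54.UL

open Pool.Agent.H901R3.MS Pool.Agent.W275.FM Pool.Agent.TH954 Pool.Agent.TH942

/-- the fibre of a fraction `U / V` with `deg V < deg U` over a large element has a large element -/
lemma large_root {K : Type} [NormedField K] [IsAlgClosed K] (U V : K[X]) (d : ℕ) (hd : 1 ≤ d)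
    (hU : U.natDegree = d) (hV : V.natDegree < d) (hV0 : V ≠ 0) (B : ℝ) :
    ∃ D : ℝ, ∀ x0 : K, D < ‖x0‖ → ∃ r : K, (U - C x0 * V).eval r = 0 ∧ B < ‖r‖ := by
  obtain ⟨j, hj⟩ : ∃ j, V.coeff j ≠ 0 := by
    by_contra h
    push Not at h
    exact hV0 (Polynomial.ext h)
  have hU0 : U ≠ 0 := by
    rintro rfl
    rw [natDegree_zero] at hU
    omega
  have hu : U.leadingCoeff ≠ 0 := leadingCoeff_ne_zero.2 hU0
  refine ⟨(‖U.coeff j‖ + ‖U.leadingCoeff‖ * (B ^ (d - j) * d.choose j)) / ‖V.coeff j‖,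
    fun x0 hx0 => ?_⟩
  by_contra hne
  push Not at hne
  have hlt : (C x0 * V).natDegree < U.natDegree := by
    rw [hU]
    exact (natDegree_C_mul_le _ _).trans_lt hV
  have hdeg : (U - C x0 * V).natDegree = d := by
    rw [natDegree_sub_eq_left_of_natDegree_lt hlt, hU]
  have hlc : (U - C x0 * V).leadingCoeff = U.leadingCoeff :=
    leadingCoeff_sub_of_degree_lt (degree_lt_degree hlt)
  set W : K[X] := C (U.leadingCoeff)⁻¹ * (U - C x0 * V) with hW
  have hmon : W.Monic := by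
    rw [Monic, hW, leadingCoeff_mul, leadingCoeff_C, hlc, inv_mul_cancel₀ hu]
  have hWd : W.natDegree = d := by
    rw [hW, natDegree_C_mul (inv_ne_zero hu), hdeg]
  have hle := coeff_le_of_roots_le (p := W) (f := RingHom.id K) (B := B) j hmon
    (IsAlgClosed.splits _) (by
      intro z hz
      rw [Polynomial.map_id] at hz
      have h1 : W.eval z = 0 := (mem_roots'.1 hz).2
      rw [hW, eval_mul, eval_C] at h1
      exact hne z ((mul_eq_zero.1 h1).resolve_left (inv_ne_zero hu)))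
  rw [Polynomial.map_id, hWd] at hle
  have hc : W.coeff j = (U.leadingCoeff)⁻¹ * (U.coeff j - x0 * V.coeff j) := by
    rw [hW, coeff_C_mul, coeff_sub, coeff_C_mul]
  rw [hc, norm_mul, norm_inv] at hle
  have hup : 0 < ‖U.leadingCoeff‖ := norm_pos_iff.2 hu
  have hvp : 0 < ‖V.coeff j‖ := norm_pos_iff.2 hj
  rw [inv_mul_le_iff₀ hup] at hle
  have h2 : ‖x0‖ * ‖V.coeff j‖ ≤ ‖U.coeff j‖ + ‖U.coeff j - x0 * V.coeff j‖ := by
    rw [← norm_mul]
    have : x0 * V.coeff j = U.coeff j - (U.coeff j - x0 * V.coeff j) := by ring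
    calc ‖x0 * V.coeff j‖ = ‖U.coeff j - (U.coeff j - x0 * V.coeff j)‖ := by rw [← this]
      _ ≤ _ := norm_sub_le _ _
  rw [div_lt_iff₀ hvp] at hx0
  linarith

section

variable {F : Type} [Field F] [IsAlgClosed F] [CharZero F] {a b : F}

open scoped Classical in
/-- the fibre of the multiplication by `n` over a point in terms of first coordinates -/
lemma lift_root (hD : Disc a b) {n : ℕ} {U V : F[X]} (hcop : IsCoprime U V)
    (hmul : ∀ (x y : F) (h : (CV a b).toAffine.Nonsingular x y), ∃ μ : F, μ ≠ 0 ∧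
      hx (n • (Affine.Point.some x y h : Pt a b)) = μ * U.eval x ∧
      hz (n • (Affine.Point.some x y h : Pt a b)) = μ * V.eval x)
    {x0 y0 : F} (h0 : (CV a b).toAffine.Nonsingular x0 y0) {x : F}
    (hx : (U - C x0 * V).eval x = 0) :
    ∃ (y : F) (h : (CV a b).toAffine.Nonsingular x y),
      n • (Affine.Point.some x y h : Pt a b) = Affine.Point.some x0 y0 h0 := by
  rw [eval_sub, eval_mul, eval_C, sub_eq_zero] at hx
  have hVx : V.eval x ≠ 0 := by
    intro h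
    rw [h, mul_zero] at hx
    obtain ⟨A, B, hAB⟩ := hcop
    have := congrArg (Polynomial.eval x) hAB
    rw [Polynomial.eval_add, Polynomial.eval_mul, Polynomial.eval_mul, hx, h] at this
    simp at this
  obtain ⟨y, hy⟩ := IsAlgClosed.exists_pow_nat_eq (x ^ 3 + a * x + b) (n := 2) (by norm_num)
  have hns : (CV a b).toAffine.Nonsingular x y := (nonsingular_iff hD).2 hy
  obtain ⟨μ, hμ, e1, e2⟩ := hmul x y hns
  have hQ : ∃ (y1 : F) (h1 : (CV a b).toAffine.Nonsingular x0 y1),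
      n • (Affine.Point.some x y hns : Pt a b) = Affine.Point.some x0 y1 h1 := by
    rcases hq : n • (Affine.Point.some x y hns : Pt a b) with _ | ⟨x1, y1, h1⟩
    · rw [hq] at e2
      exact absurd e2.symm (mul_ne_zero hμ hVx)
    · rw [hq] at e1 e2
      have e1' : x1 = μ * U.eval x := e1
      have e2' : 1 = μ * V.eval x := e2
      have : x1 = x0 := by
        rw [e1', hx]
        linear_combination -x0 * e2'
      subst this
      exact ⟨y1, h1, rfl⟩
  obtain ⟨y1, h1, hQ⟩ := hQ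
  have hy01 : y1 ^ 2 = y0 ^ 2 := by
    have k1 := eqn_of h1
    have k0 := eqn_of h0
    unfold Eqn at k1 k0
    rw [k1, k0]
  rcases sq_eq_sq_iff_eq_or_eq_neg.mp hy01 with h | h
  · subst h
    exact ⟨y, hns, hQ⟩
  · subst h
    have hns' : (CV a b).toAffine.Nonsingular x (-y) :=
      (nonsingular_iff hD).2 (by unfold Eqn; rw [neg_sq]; exact hy)
    refine ⟨-y, hns', ?_⟩
    have e3 : (Affine.Point.some x (-y) hns' : Pt a b) =
        -(Affine.Point.some x y hns : Pt a b) := (neg_some' hns hns').symm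
    rw [e3, smul_neg, hQ, neg_some' h1 (by rw [neg_neg]; exact h0)]
    simp only [neg_neg]

end

section

variable {Ω : Type} [NormedField Ω] [IsAlgClosed Ω] [CharZero Ω]

open scoped Classical in
/-- large points of a short equation are divisible by large points -/
lemma div_short {a b : Ω} (hD : Disc a b) {n : ℕ} (hn : 1 ≤ n) (B : ℝ) :
    ∃ D : ℝ, ∀ (x0 y0 : Ω) (h0 : (CV a b).toAffine.Nonsingular x0 y0), D < ‖x0‖ →
      ∃ (x y : Ω) (h : (CV a b).toAffine.Nonsingular x y), B < ‖x‖ ∧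
        n • (Affine.Point.some x y h : Pt a b) = Affine.Point.some x0 y0 h0 := by
  obtain ⟨U, V, hcop, hU, hV, hmul⟩ := mulPoly Ω a b hD n hn
  have hn2 : 1 ≤ n ^ 2 := Nat.one_le_pow _ _ hn
  have hV0 : V ≠ 0 := by
    rintro rfl
    rw [isCoprime_zero_right] at hcop
    have := Polynomial.natDegree_eq_zero_of_isUnit hcop
    omega
  obtain ⟨D, hDD⟩ := large_root U V (n ^ 2) hn2 hU hV hV0 B
  refine ⟨D, fun x0 y0 h0 hx0 => ?_⟩
  obtain ⟨x, hx, hBx⟩ := hDD x0 hx0
  obtain ⟨y, h, e⟩ := lift_root hD hcop hmul h0 hx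
  exact ⟨x, y, h, hBx, e⟩

end

open scoped Classical in
/-- DV -/
theorem dv : Pool.Agent.P8H17.UL.S_DV := by
  intro Ω _ _ _ _ V hΔ n hn
  have h6 : (6 : Ω) ≠ 0 := by norm_num
  refine ⟨Pool.Agent.P8H4.PK.tor_fin hΔ hn, fun B => ?_⟩
  set β : Ω := -V.b₂ / 12 with hβ
  have h36 : 0 < ‖(1 / 6 : Ω) ^ 2‖ := norm_pos_iff.2 (pow_ne_zero _ (one_div_ne_zero h6))
  set c : ℝ := ‖(1 / 6 : Ω) ^ 2‖ with hc
  obtain ⟨D, hD⟩ := div_short (Pool.Agent.P8H4.PK.disc h6 hΔ) hn ((max B 0 + ‖β‖) / c)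
  refine ⟨c * D + ‖β‖, fun P hP => ?_⟩
  rcases Pool.Agent.P8H17.UL.pt_cases P with rfl | ⟨X, Y, H, rfl⟩
  · exact ⟨0, smul_zero _, fun x y h e => absurd e.symm (Pool.Agent.P8H17.UL.pt_ne h)⟩
  · have hX : c * D + ‖β‖ < ‖X‖ := hP X Y H rfl
    obtain ⟨x0, y0, h0, e0, eX, -⟩ := Pool.Agent.P8H4.PK.eqv_symm_pt h6 hΔ H
    have hx0 : D < ‖x0‖ := by
      have h1 : ‖X‖ ≤ c * ‖x0‖ + ‖β‖ := by
        rw [eX, hc, ← norm_mul]
        exact norm_add_le _ _
      have h2 : c * D < c * ‖x0‖ := by linarith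
      exact lt_of_mul_lt_mul_left h2 h36.le
    obtain ⟨x, y, h, hBx, e⟩ := hD x0 y0 h0 hx0
    refine ⟨Pool.Agent.P8H4.PK.eqv h6 hΔ (Affine.Point.some x y h), ?_, ?_⟩
    · have h1 := congrArg (Pool.Agent.P8H4.PK.eqv h6 hΔ) e
      have h2 := (map_nsmul (Pool.Agent.P8H4.PK.eqv h6 hΔ) n (Affine.Point.some x y h)).symm.trans h1
      rw [← e0, AddEquiv.apply_symm_apply] at h2
      exact h2
    · intro x' y' h' e'
      have e1 := (Pool.Agent.P8H4.PK.eqv_some h6 hΔ h).symm.trans e'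
      have e2 := (Pool.Agent.P8H4.PK.pt_inj (V := V) e1).1
      rw [← e2]
      rw [div_lt_iff₀ h36] at hBx
      have h3 : ‖(1 / 6 : Ω) ^ 2 * x‖ ≤ ‖(1 / 6 : Ω) ^ 2 * x + β‖ + ‖β‖ := by
        calc ‖(1 / 6 : Ω) ^ 2 * x‖ = ‖((1 / 6 : Ω) ^ 2 * x + β) - β‖ := by rw [add_sub_cancel_right]
          _ ≤ _ := norm_sub_le _ _
      rw [norm_mul, ← hc] at h3
      have h4 : B ≤ max B 0 := le_max_left _ _
      nlinarith

end Pool.Agent.P8H54.UL
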